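import Pool.Agent.Helper81.PC.St
import Mathlib.Tactic.Linarith
import Mathlib.Tactic.Positivity

set_option autoImplicit false

/-!
# Packed checker (S15955): the last test of a certificate (module C)
-/

namespace Pool.Agent.Helper90.PC

open Helper11.CT Helper55.PC Helper81.PC

/-- digits of absolute value at most `10 ^ 9` -/
theorem phi_bd : ∀ (n : ℕ) (a : List ℤ), a.length ≤ n → (∀ y ∈ a, |y| ≤ 1000000000) →
    4 * |phi BB a| ≤ BB ^ n - 1 := by
  intro n
  induction n with
  | zero =>
    intro a ha _
    have : a = [] := List.length_eq_zero_iff.1 (by omega)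
    subst this
    simp
  | succ n ih =>
    intro a ha hb
    cases a with
    | nil =>
      rw [phi_nil, abs_zero, mul_zero]
      have : (1 : ℤ) ≤ BB ^ (n + 1) := one_le_pow₀ (by norm_num)
      linarith
    | cons c e =>
      have h1 := ih e (by simpa using ha) (fun y hy => hb y (List.mem_cons_of_mem _ hy))
      have h2 := hb c List.mem_cons_self
      rw [phi_cons]
      have h3 : |c + BB * phi BB e| ≤ |c| + BB * |phi BB e| := by
        refine (abs_add_le _ _).trans ?_
        rw [abs_mul, abs_of_pos (show (0 : ℤ) < BB by norm_num)]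
      have h4 : BB ^ (n + 1) = BB * BB ^ n := by ring
      rw [h4]
      have h5 : (BB : ℤ) = 4294967296 := rfl
      rw [h5] at *
      linarith

theorem core (B : ℤ) (p C S T V : ℤ) (hB : B = 4294967296) (hV : V = B * (C + B * p + S) + T)
    (hC : |C| ≤ 1000000000) (hS : |S| ≤ 1000000) (hT0 : 0 ≤ T) (hT : T ≤ 1000000)
    (h1 : 1 ≤ V) (h2 : V ≤ 9223372032559808512) :
    p = 0 ∧ (0 < C + S ∨ (C + S = 0 ∧ 1 ≤ T)) := by
  subst hB
  rw [abs_le] at hC hS
  obtain ⟨c1, c2⟩ := hC
  obtain ⟨s1, s2⟩ := hS
  have hp : p = 0 := by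
    omega
  subst hp
  refine ⟨rfl, ?_⟩
  omega

theorem fin_cons (C : ℤ) (e : List ℤ) (S : ℤ) (st : Bool) :
    fin (C :: e) S st = (allz e && (ipos (Int.add C S) || (izero (Int.add C S) && st))) := rfl

theorem fin_nil (S : ℤ) (st : Bool) : fin [] S st = (ipos S || (izero S && st)) := rfl

theorem tail (U : ℤ) (T : ℕ) (st : Bool) (h : 0 < U ∨ (U = 0 ∧ (1 : ℤ) ≤ T)) (hst : st = false → T = 0) :
    (ipos U || (izero U && st)) = true := by
  rcases h with h | ⟨h, h'⟩
  · rw [(ipos_iff U).2 h]
    rfl
  · have : st = true := by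
      cases st with
      | true => rfl
      | false =>
        rw [hst rfl] at h'
        norm_num at h'
    rw [this, (izero_iff U).2 h]
    simp

theorem hC (hB : StB) : StC := by
  intro a S T x st ha hb hS hT hst hx h1 h2
  have hphi := phi_bd 16 a ha hb
  set V : ℤ := BB * (phi BB a + S) + T with hV
  have hy : ((x % ZN : ℕ) : ℤ) ≡ V [ZMOD ZZ] := by
    refine Int.ModEq.trans ?_ hx
    rw [Int.natCast_mod, ZN_eq]
    exact Int.mod_modEq _ _
  set y : ℕ := x % ZN with hydef
  have hVabs : 2 * |V| < ZZ := by
    have h3 : |V| ≤ BB * (|phi BB a| + 1000000) + 1000000 := by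
      rw [hV]
      refine (abs_add_le _ _).trans ?_
      rw [abs_mul, abs_of_pos (show (0 : ℤ) < BB by norm_num), Nat.abs_cast]
      have h4 : |phi BB a + S| ≤ |phi BB a| + 1000000 := (abs_add_le _ _).trans (by linarith)
      have h5 : (T : ℤ) ≤ 1000000 := by exact_mod_cast hT
      have := mul_le_mul_of_nonneg_left h4 (show (0 : ℤ) ≤ BB by norm_num)
      linarith
    have h6 : ZZ = BB * BB ^ 16 := by norm_num
    have h7 : (BB : ℤ) ^ 16 = 13407807929942597099574024998205846127479365820592393377723561443721764030073546976801874298166903427690031858186486050853753882811946569946433649006084096 := by norm_num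
    rw [h6]
    rw [h7] at hphi ⊢
    generalize |phi BB a| = q at hphi h3
    have h5 : (BB : ℤ) = 4294967296 := rfl
    rw [h5] at h3 ⊢
    omega
  have hyV : (y : ℤ) = V := by
    have hd : ZZ ∣ V - y := (Int.modEq_iff_dvd.1 hy)
    have h8 : |V - y| < ZZ := by
      have h9 : |V - y| ≤ |V| + |(y : ℤ)| := abs_sub _ _
      rw [Nat.abs_cast] at h9
      have h10 : (y : ℤ) ≤ 9223372032559808512 := by exact_mod_cast h2
      have h11 : ZZ = 57586096570152913699974892898380567793532123114264532903689671329431521032595044740083720782129802971518987656109067457577065805510327036019308994315074097345724416 := by norm_num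
      rw [h11] at hVabs ⊢
      omega
    have := Int.eq_zero_of_abs_lt_dvd hd h8
    linarith
  have hV1 : 1 ≤ V := by
    rw [← hyV]
    exact_mod_cast h1
  have hV2 : V ≤ 9223372032559808512 := by
    rw [← hyV]
    exact_mod_cast h2
  have hT' : (T : ℤ) ≤ 1000000 := by exact_mod_cast hT
  cases a with
  | nil =>
    rw [fin_nil]
    have h := core BB 0 0 S T V rfl (by rw [hV, phi_nil]; ring) (by norm_num) hS
      (Nat.cast_nonneg T) hT' hV1 hV2
    rw [zero_add] at h
    exact tail S T st h.2 hst
  | cons C e =>
    rw [fin_cons]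
    have h := core BB (phi BB e) C S T V rfl (by rw [hV, phi_cons]) (hb C List.mem_cons_self) hS
      (Nat.cast_nonneg T) hT' hV1 hV2
    have hz : allz e = true := by
      refine hB.1 BB 16 e (by norm_num) ?_ ?_ ?_
      · intro z hz
        exact (hb z (List.mem_cons_of_mem _ hz)).trans_lt (by norm_num)
      · have : e.length + 1 ≤ 16 := by simpa using ha
        omega
      · rw [h.1]
    rw [hz, Bool.true_and]
    exact tail (C + S) T st h.2 hst

end Pool.Agent.Helper90.PC
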